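import Pool.Agent.U180.NG.Stm

/-!
Project NG, package FLUC: mean and fluctuations of the number of displaced lattice points.
-/

set_option autoImplicit false

open MeasureTheory ProbabilityTheory Filter Topology

namespace Pool.Agent.U55.NG

open Pool.Agent.U180.NG

theorem ind_mem {Ω : Type} (ξ : ℤ × ℤ → Ω → ℝ × ℝ) (R : ℝ) (z : ℤ × ℤ) (ω : Ω) :
    0 ≤ ind ξ R z ω ∧ ind ξ R z ω ≤ 1 := by
  unfold ind
  by_cases h : ξ z ω ∈ disc R z
  · rw [Set.indicator_of_mem h]; norm_num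
  · rw [Set.indicator_of_notMem h]; norm_num

theorem ind_integrable {Ω : Type} [MeasurableSpace Ω] (P : Measure Ω) [IsProbabilityMeasure P]
    (ξ : ℤ × ℤ → Ω → ℝ × ℝ) (R : ℝ) (z : ℤ × ℤ) (h : Measurable (ind ξ R z)) :
    Integrable (ind ξ R z) P := by
  refine Integrable.of_bound h.aestronglyMeasurable 1 (Filter.Eventually.of_forall fun ω => ?_)
  rw [Real.norm_eq_abs, abs_of_nonneg (ind_mem ξ R z ω).1]
  exact (ind_mem ξ R z ω).2

theorem t_FLUC (h1 : S_CNT) (h2 : S_MEANP) (h3 : S_VARP) (h4 : S_ANN) : S_FLUC := by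
  intro Ω _ P hP δ ρ μ ξ hξ
  obtain ⟨hρ, hmeas, hind, hmean, hae⟩ := h1 Ω P hP δ ρ μ ξ hξ
  obtain ⟨C, hC, hMEAN⟩ := h2
  obtain ⟨c, R0, hc, hVAR⟩ := h3 δ hξ.pos hξ.le_one
  obtain ⟨A, hA, hANN⟩ := h4 (2 * ρ + 1) (by linarith)
  have hδ := hξ.pos
  -- a.e. count
  have F1 : ∀ R : ℝ, 0 ≤ R → ∀ᵐ ω ∂P, (count (fun z => ξ z ω) R : ℝ) =
      ∑ z ∈ box ⌈R + 2 * ρ + 2⌉₊, ind ξ R z ω := by
    intro R hR
    filter_upwards [hae] with ω hω
    exact (hω.1 R _ hR (Nat.le_ceil _)).2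
  have F2 : ∀ R : ℝ, 0 ≤ R → ∫ ω, (count (fun z => ξ z ω) R : ℝ) ∂P =
      ∑ z ∈ box ⌈R + 2 * ρ + 2⌉₊, ∫ ω, ind ξ R z ω ∂P := by
    intro R hR
    rw [integral_congr_ae (F1 R hR), integral_finset_sum]
    intro z _
    exact ind_integrable P ξ R z (hmeas R z)
  -- outside of the annulus
  have F3 : ∀ R : ℝ, 0 ≤ R → ∀ z ∈ box ⌈R + 2 * ρ + 2⌉₊,
      z ∉ ann (2 * ρ + 1) R ⌈R + 2 * ρ + 2⌉₊ →
      ((∀ᵐ ω ∂P, ind ξ R z ω = 1) ∨ (∀ᵐ ω ∂P, ind ξ R z ω = 0)) := by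
    intro R hR z hz hz'
    have h : 2 * ρ + 1 < |Real.sqrt ((z.1 : ℝ) ^ 2 + (z.2 : ℝ) ^ 2) - R| := by
      by_contra hcon
      exact hz' (Finset.mem_filter.2 ⟨hz, not_lt.1 hcon⟩)
    rcases lt_abs.1 h with h | h
    · right
      filter_upwards [hae] with ω hω
      exact (hω.2 R z hR).2 (by linarith)
    · left
      filter_upwards [hae] with ω hω
      exact (hω.2 R z hR).1 (by linarith)
  have F4 : ∀ R : ℝ, 0 ≤ R → ∀ z ∈ box ⌈R + 2 * ρ + 2⌉₊,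
      z ∉ ann (2 * ρ + 1) R ⌈R + 2 * ρ + 2⌉₊ →
      (∫ ω, ind ξ R z ω ∂P) * (1 - ∫ ω, ind ξ R z ω ∂P) = 0 := by
    intro R hR z hz hz'
    rcases F3 R hR z hz hz' with h | h
    · have : ∫ ω, ind ξ R z ω ∂P = 1 := by
        rw [integral_congr_ae h]; simp
      rw [this]; ring
    · have : ∫ ω, ind ξ R z ω ∂P = 0 := by
        rw [integral_congr_ae h]; simp
      rw [this]; ring
  have F5 : ∀ R : ℝ, 0 ≤ R → ∀ z ∈ box ⌈R + 2 * ρ + 2⌉₊,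
      z ∉ ann (2 * ρ + 1) R ⌈R + 2 * ρ + 2⌉₊ →
      ∀ᵐ ω ∂P, ind ξ R z ω - ∫ ω, ind ξ R z ω ∂P = 0 := by
    intro R hR z hz hz'
    rcases F3 R hR z hz hz' with h | h
    · have : ∫ ω, ind ξ R z ω ∂P = 1 := by
        rw [integral_congr_ae h]; simp
      filter_upwards [h] with ω hω
      rw [this, hω]; ring
    · have : ∫ ω, ind ξ R z ω ∂P = 0 := by
        rw [integral_congr_ae h]; simp
      filter_upwards [h] with ω hω
      rw [this, hω]; ring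
  have hsub : ∀ R : ℝ, ann (2 * ρ + 1) R ⌈R + 2 * ρ + 2⌉₊ ⊆ box ⌈R + 2 * ρ + 2⌉₊ :=
    fun R => Finset.filter_subset _ _
  refine ⟨C / δ, A, c, max R0 1, 2 * ρ + 1, fun R => ann (2 * ρ + 1) R ⌈R + 2 * ρ + 2⌉₊,
    div_pos hC hδ, hA, hc, by linarith, ?_, ?_, ?_, hmeas, hind, ?_⟩
  · intro R hR
    rw [F2 R (by linarith)]
    have h := hMEAN δ ρ μ hδ hξ.le_one hξ.prob hξ.supp R ⌈R + 2 * ρ + 2⌉₊ hR (Nat.le_ceil _)
    have e : C / δ * Real.sqrt R = C * Real.sqrt R / δ := by ring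
    rw [e]
    simpa only [hmean] using h
  · intro R hR
    refine ⟨hANN R _ hR, fun z hz => (Finset.mem_filter.1 hz).2, ?_⟩
    have hR0 : 0 ≤ R := by linarith
    have hall : ∀ᵐ ω ∂P, ∀ z ∈ box ⌈R + 2 * ρ + 2⌉₊, z ∉ ann (2 * ρ + 1) R ⌈R + 2 * ρ + 2⌉₊ →
        ind ξ R z ω - ∫ ω, ind ξ R z ω ∂P = 0 := by
      rw [ae_all_iff]
      intro z
      by_cases hz : z ∈ box ⌈R + 2 * ρ + 2⌉₊
      · by_cases hz' : z ∈ ann (2 * ρ + 1) R ⌈R + 2 * ρ + 2⌉₊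
        · exact Filter.Eventually.of_forall fun ω _ h => absurd hz' h
        · filter_upwards [F5 R hR0 z hz hz'] with ω hω _ _
          exact hω
      · exact Filter.Eventually.of_forall fun ω h => absurd h hz
    filter_upwards [F1 R hR0, hall] with ω hω hω'
    rw [F2 R hR0, hω, ← Finset.sum_sub_distrib]
    exact (Finset.sum_subset (hsub R) fun z hz hz' => hω' z hz hz').symm
  · intro R hR
    have hR1 : R0 ≤ R := le_trans (le_max_left _ _) hR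
    have hR2 : 1 ≤ R := le_trans (le_max_right _ _) hR
    have hR0 : 0 ≤ R := by linarith
    have h := hVAR ρ μ hξ.prob hξ.supp R ⌈R + 2 * ρ + 2⌉₊ hR1 (Nat.le_ceil _)
    have e := Finset.sum_subset (hsub R) (F4 R hR0)
    calc c * R ≤ _ := h
      _ = ∑ z ∈ box ⌈R + 2 * ρ + 2⌉₊, (∫ ω, ind ξ R z ω ∂P) * (1 - ∫ ω, ind ξ R z ω ∂P) := by
        simp only [hmean]
      _ = _ := e.symm
  · filter_upwards [hae] with ω hω R R' hR hRR'
    refine Set.ncard_le_ncard ?_ (hω.1 R' ⌈R' + 2 * ρ + 2⌉₊ (le_trans hR hRR') (Nat.le_ceil _)).1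
    intro z hz
    simp only [Set.mem_setOf_eq] at hz ⊢
    exact le_trans hz (pow_le_pow_left₀ hR hRR' 2)

end Pool.Agent.U55.NG
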